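import Mathlib
import Pool.Agent.Lib.MP_0d3379_co.Main

namespace Pool.Agent.Results.MP_0d3379_co.TotalExtension

open Pool.Agent.Lib.MP_0d3379_co

/-- **Q1 is false**, and it fails for every maximum degree `Δ ≥ 7`: there are a finite graph `G`
with maximum degree exactly `Δ`, a matching `H` in `G` and a total-`(Δ+3)`-coloring of `H` in `G`
that does not extend to a total-`(Δ+3)`-coloring of `G`. -/
theorem result : ∀ Δ : ℕ, 7 ≤ Δ →
    ∃ (V : Type) (_ : Fintype V) (_ : DecidableEq V) (G : SimpleGraph V) (_ : DecidableRel G.Adj),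
      G.maxDegree = Δ ∧
      ∃ (H : G.Subgraph) (cv : V → Fin (Δ + 3)) (ce : Sym2 V → Fin (Δ + 3)),
        H.IsMatching ∧ IsTotalColoringIn G H cv ce ∧ ¬ ExtendsTo G H cv ce :=
  fun Δ hΔ => main Δ hΔ

end Pool.Agent.Results.MP_0d3379_co.TotalExtension
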